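import Pool.Agent.helper27.TD.Spec

set_option autoImplicit false

namespace Pool.Agent.helper27.TD

open Finset Polynomial Pool.Agent.helper47.RA

theorem RES_add {R : Type} [CommRing R] (f : ℕ) (F G : ℤ[X]) (x y : R) :
    hev f (F + G) x y = hev f F x y + hev f G x y := by
  unfold hev
  rw [← Finset.sum_add_distrib]
  refine Finset.sum_congr rfl fun i _ => ?_
  rw [coeff_add]
  push_cast
  ring

theorem RES_zero {R : Type} [CommRing R] (f : ℕ) (x y : R) : hev f (0 : ℤ[X]) x y = 0 := by
  unfold hev
  refine Finset.sum_eq_zero fun i _ => ?_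
  simp

theorem RES_sum {R : Type} [CommRing R] {ι : Type} (s : Finset ι) (f : ℕ) (F : ι → ℤ[X]) (x y : R) :
    hev f (∑ i ∈ s, F i) x y = ∑ i ∈ s, hev f (F i) x y := by
  classical
  induction s using Finset.induction_on with
  | empty => rw [Finset.sum_empty, Finset.sum_empty, RES_zero]
  | insert i s hi ih => rw [Finset.sum_insert hi, Finset.sum_insert hi, RES_add, ih]

theorem RES_mono {R : Type} [CommRing R] (f i : ℕ) (hi : i ≤ f) (a : ℤ) (x y : R) :
    hev f (C a * X ^ i) x y = (a : R) * (x ^ i * y ^ (f - i)) := by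
  unfold hev
  rw [Finset.sum_eq_single i]
  · rw [coeff_C_mul_X_pow, if_pos rfl]
    ring
  · intro j _ hj
    rw [coeff_C_mul_X_pow, if_neg hj]
    simp
  · intro h
    exact absurd (Finset.mem_range.2 (by omega)) h

theorem RES_mul {R : Type} [CommRing R] (f f' : ℕ) (F F' : ℤ[X]) (hF : F.natDegree ≤ f)
    (hF' : F'.natDegree ≤ f') (x y : R) :
    hev (f + f') (F * F') x y = hev f F x y * hev f' F' x y := by
  have e1 : F = ∑ i ∈ Finset.range (f + 1), C (F.coeff i) * X ^ i := by
    conv_lhs => rw [F.as_sum_range_C_mul_X_pow' (n := f + 1) (by omega)]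
  have e2 : F' = ∑ i ∈ Finset.range (f' + 1), C (F'.coeff i) * X ^ i := by
    conv_lhs => rw [F'.as_sum_range_C_mul_X_pow' (n := f' + 1) (by omega)]
  have e3 : F * F' = ∑ i ∈ Finset.range (f + 1), ∑ j ∈ Finset.range (f' + 1),
      C (F.coeff i * F'.coeff j) * X ^ (i + j) := by
    conv_lhs => rw [e1, e2]
    rw [Finset.sum_mul_sum]
    refine Finset.sum_congr rfl fun i _ => Finset.sum_congr rfl fun j _ => ?_
    rw [C_mul, pow_add]
    ring
  rw [e3, RES_sum]
  unfold hev
  rw [Finset.sum_mul_sum]
  refine Finset.sum_congr rfl fun i hi => ?_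
  have hs := RES_sum (R := R) (Finset.range (f' + 1)) (f + f')
    (fun j => C (F.coeff i * F'.coeff j) * X ^ (i + j)) x y
  unfold hev at hs
  rw [hs]
  refine Finset.sum_congr rfl fun j hj => ?_
  rw [Finset.mem_range] at hi hj
  have hm := RES_mono (R := R) (f + f') (i + j) (by omega) (F.coeff i * F'.coeff j) x y
  unfold hev at hm
  rw [hm]
  have e4 : f + f' - (i + j) = (f - i) + (f' - j) := by omega
  rw [e4, pow_add, pow_add]
  push_cast
  ring

theorem RES_comb (b : ℕ) (A B F : ℤ[X]) (hA : A.natDegree ≤ b) (hB : B.natDegree ≤ b)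
    (hF : F.degree < ((b + b : ℕ) : WithBot ℕ)) :
    ∃ p q : ℤ[X], p.degree < (b : WithBot ℕ) ∧ q.degree < (b : WithBot ℕ) ∧
      A * p + B * q = C (A.resultant B b b) * F := by
  let Y := adjSylvester (m := b) (n := b) A B ⟨F, Polynomial.mem_degreeLT.2 hF⟩
  have h : ((sylvesterMap A B hA hB Y)).1 = _ :=
    congrArg Subtype.val (LinearMap.congr_fun (sylveserMap_comp_adjSylvester A B hA hB)
      ⟨F, Polynomial.mem_degreeLT.2 hF⟩)
  refine ⟨Y.2, Y.1, Polynomial.mem_degreeLT.1 Y.2.2, Polynomial.mem_degreeLT.1 Y.1.2, ?_⟩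
  have h2 : (sylvesterMap A B hA hB Y).1 = A * (Y.2 : ℤ[X]) + B * (Y.1 : ℤ[X]) := by
    simp [sylvesterMap]
  rw [← h2, h]
  simp [Algebra.smul_def]

theorem RES_natDegree (b : ℕ) (hb : 1 ≤ b) (p : ℤ[X]) (hp : p.degree < (b : WithBot ℕ)) :
    p.natDegree ≤ b - 1 := by
  by_cases h : p = 0
  · rw [h]; simp
  · have := (natDegree_lt_iff_degree_lt h).2 hp
    omega

theorem RES : RES_stmt := by
  intro b hb
  refine ⟨(2 * b).factorial + 2 * b, by omega, ?_⟩
  intro H hH A B hC hAB
  refine ⟨A.resultant B b b, ?_, ?_, ?_⟩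
  · -- nonzero
    intro h0
    have hinj : Function.Injective (Int.castRingHom ℚ) := Int.cast_injective
    have h1 : resultant (A.map (Int.castRingHom ℚ)) (B.map (Int.castRingHom ℚ)) b b = 0 := by
      rw [resultant_map_map, h0, map_zero]
    have hne := resultant_ne_zero _ _ hC.cop
    have hdA : (A.map (Int.castRingHom ℚ)).natDegree = A.natDegree :=
      natDegree_map_eq_of_injective hinj A
    have hdB : (B.map (Int.castRingHom ℚ)).natDegree = B.natDegree :=
      natDegree_map_eq_of_injective hinj B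
    rcases hC.dAB with hd | hd
    · obtain ⟨k, hk⟩ := Nat.exists_eq_add_of_le hC.dB
      have h2 : resultant (A.map (Int.castRingHom ℚ)) (B.map (Int.castRingHom ℚ)) b
          (B.natDegree + k) = 0 := by rw [← hk]; exact h1
      rw [resultant_add_right_deg _ _ _ _ _ hdB.le] at h2
      rcases mul_eq_zero.1 h2 with h3 | h3
      · have h5 : (A.map (Int.castRingHom ℚ)).coeff b = 0 := by
          by_contra h6
          exact pow_ne_zero k h6 h3
        rw [← hd, ← hdA, coeff_natDegree, leadingCoeff_eq_zero] at h5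
        rw [h5] at hdA
        simp at hdA
        omega
      · rw [hdA, hdB, hd] at hne
        exact hne h3
    · obtain ⟨k, hk⟩ := Nat.exists_eq_add_of_le hC.dA
      have h2 : resultant (A.map (Int.castRingHom ℚ)) (B.map (Int.castRingHom ℚ))
          (A.natDegree + k) b = 0 := by rw [← hk]; exact h1
      rw [resultant_add_left_deg _ _ _ _ _ hdA.le] at h2
      rcases mul_eq_zero.1 h2 with h3 | h3
      · rcases mul_eq_zero.1 h3 with h4 | h4
        · exact absurd h4 (pow_ne_zero _ (by norm_num))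
        · have h5 : (B.map (Int.castRingHom ℚ)).coeff b = 0 := by
            by_contra h6
            exact pow_ne_zero k h6 h4
          rw [← hd, ← hdB, coeff_natDegree, leadingCoeff_eq_zero] at h5
          rw [h5] at hdB
          simp at hdB
          omega
      · rw [hdA, hdB, hd] at hne
        exact hne h3
  · -- size
    have hent : ∀ i j, |sylvester A B b b i j| ≤ (H : ℤ) := by
      intro i j
      have hH0 : (0 : ℤ) ≤ H := by positivity
      induction j using Fin.addCases with
      | left j =>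
        simp only [sylvester, Matrix.of_apply, Fin.addCases_left]
        split_ifs
        · exact (hAB _).2
        · simp
      | right j =>
        simp only [sylvester, Matrix.of_apply, Fin.addCases_right]
        split_ifs
        · exact (hAB _).1
        · simp
    have h1 := Matrix.det_le (A := sylvester A B b b) (abv := AbsoluteValue.abs) (x := (H : ℤ)) hent
    rw [Fintype.card_fin] at h1
    have h20 : |A.resultant B b b| ≤ (b + b).factorial * (H : ℤ) ^ (b + b) := by
      unfold resultant
      simpa using h1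
    have h2 : |A.resultant B b b| ≤ (2 * b).factorial * (H : ℤ) ^ (2 * b) := by
      have e : 2 * b = b + b := by ring
      rw [e]
      exact h20
    refine h2.trans ?_
    have hH1 : (1 : ℤ) ≤ H := by exact_mod_cast hH
    have h3 : (H : ℤ) ^ (2 * b) ≤ (H : ℤ) ^ ((2 * b).factorial + 2 * b) :=
      pow_le_pow_right₀ hH1 (by omega)
    have h4 : ((2 * b).factorial : ℤ) ≤ (((2 * b).factorial + 2 * b : ℕ) : ℤ) := by
      push_cast
      have : (0 : ℤ) ≤ 2 * b := by positivity
      linarith
    exact mul_le_mul h4 h3 (by positivity) (by positivity)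
  · intro u v huv
    have hlt : ((2 * b - 1 : ℕ) : WithBot ℕ) < ((b + b : ℕ) : WithBot ℕ) := by
      exact_mod_cast (by omega : 2 * b - 1 < b + b)
    obtain ⟨p, q, hp, hq, h1⟩ := RES_comb b A B (C 1 * X ^ 0) hC.dA hC.dB (by
      refine lt_of_le_of_lt (degree_C_mul_X_pow_le 0 _) ?_
      exact_mod_cast (by omega : 0 < b + b))
    obtain ⟨p', q', hp', hq', h2⟩ := RES_comb b A B (C 1 * X ^ (2 * b - 1)) hC.dA hC.dB (by
      exact lt_of_le_of_lt (degree_C_mul_X_pow_le (2 * b - 1) _) hlt)
    have key : ∀ (P Q : ℤ[X]) (i : ℕ), i ≤ 2 * b - 1 → P.degree < (b : WithBot ℕ) →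
        Q.degree < (b : WithBot ℕ) → A * P + B * Q = C (A.resultant B b b) * (C 1 * X ^ i) →
        (Int.gcd (hev b A u v) (hev b B u v) : ℤ) ∣ A.resultant B b b * (u ^ i * v ^ (2 * b - 1 - i)) := by
      intro P Q i hi hP hQ h
      have e1 : hev (b + (b - 1)) (A * P + B * Q) u v =
          hev b A u v * hev (b - 1) P u v + hev b B u v * hev (b - 1) Q u v := by
        rw [RES_add, RES_mul b (b - 1) A P hC.dA (RES_natDegree b hb P hP),
          RES_mul b (b - 1) B Q hC.dB (RES_natDegree b hb Q hQ)]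
      have e2 : b + (b - 1) = 2 * b - 1 := by omega
      rw [h, ← mul_assoc, ← C_mul, mul_one, e2, RES_mono (R := ℤ) (2 * b - 1) i hi] at e1
      have e3 : ((A.resultant B b b : ℤ) : ℤ) * (u ^ i * v ^ (2 * b - 1 - i)) =
          hev b A u v * hev (b - 1) P u v + hev b B u v * hev (b - 1) Q u v := by
        simpa using e1
      rw [e3]
      exact dvd_add (Dvd.dvd.mul_right (Int.gcd_dvd_left _ _) _) (Dvd.dvd.mul_right (Int.gcd_dvd_right _ _) _)
    have k1 := key p q 0 (by omega) hp hq h1
    have k2 := key p' q' (2 * b - 1) le_rfl hp' hq' h2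
    rw [pow_zero, one_mul, Nat.sub_zero] at k1
    rw [Nat.sub_self, pow_zero, mul_one] at k2
    obtain ⟨s, t, hst⟩ : IsCoprime (u ^ (2 * b - 1)) (v ^ (2 * b - 1)) := huv.pow
    have e5 : A.resultant B b b = s * (A.resultant B b b * u ^ (2 * b - 1)) +
        t * (A.resultant B b b * v ^ (2 * b - 1)) := by
      linear_combination (-(A.resultant B b b)) * hst
    rw [e5]
    exact dvd_add (Dvd.dvd.mul_left k2 _) (Dvd.dvd.mul_left k1 _)

end Pool.Agent.helper27.TD
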