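import Pool.Agent.helper27.TD.Spec

set_option autoImplicit false

namespace Pool.Agent.helper27.TD

open Finset Polynomial Pool.Agent.helper47.RA

theorem KER_norm {α β : Type} [Fintype α] [Fintype β] (A : Matrix α β ℤ) (H : ℕ) (hH : 1 ≤ H)
    (hA : ∀ i j, |A i j| ≤ H) (h0 : 0 < Fintype.card α) (h1 : Fintype.card α < Fintype.card β) :
    ∃ t : β → ℤ, t ≠ 0 ∧ A.mulVec t = 0 ∧
      ∀ i, |t i| ≤ ((Fintype.card β * H : ℕ) : ℤ) ^ Fintype.card β := by
  obtain ⟨t, ht0, htA, htn⟩ := Int.Matrix.exists_ne_zero_int_vec_norm_le A h1 h0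
  refine ⟨t, ht0, htA, fun i => ?_⟩
  have hHr : (1 : ℝ) ≤ H := by exact_mod_cast hH
  have hβ : (1 : ℝ) ≤ Fintype.card β := by
    have : 1 ≤ Fintype.card β := by omega
    exact_mod_cast this
  have hnorm : ∀ B : ℝ, 0 ≤ B → (∀ i j, ‖A i j‖ ≤ B) →
      (Fintype.card β * max 1 (@norm _ (Matrix.seminormedAddCommGroup.toNorm) A) : ℝ) ≤
        Fintype.card β * max 1 B := by
    intro B hB hij
    refine mul_le_mul_of_nonneg_left (max_le_max le_rfl ?_) (by positivity)
    exact (Matrix.norm_le_iff hB).2 hij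
  have hA' : ∀ i j, ‖A i j‖ ≤ (H : ℝ) := by
    intro i j
    rw [Int.norm_eq_abs]
    exact_mod_cast hA i j
  have h2 := hnorm H (by linarith) hA'
  rw [max_eq_right hHr] at h2
  have hbase : (1 : ℝ) ≤ Fintype.card β * H := by nlinarith
  have hexp : (Fintype.card α : ℝ) / (Fintype.card β - Fintype.card α) ≤ Fintype.card β := by
    have h3 : (1 : ℝ) ≤ (Fintype.card β : ℝ) - Fintype.card α := by
      have : Fintype.card α + 1 ≤ Fintype.card β := h1
      have : ((Fintype.card α : ℝ) + 1) ≤ Fintype.card β := by exact_mod_cast this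
      linarith
    rw [div_le_iff₀ (by linarith)]
    have h4 : (Fintype.card α : ℝ) ≤ Fintype.card β := by exact_mod_cast h1.le
    nlinarith
  have hexp0 : 0 ≤ (Fintype.card α : ℝ) / (Fintype.card β - Fintype.card α) := by
    have h4 : (Fintype.card α : ℝ) ≤ Fintype.card β := by exact_mod_cast h1.le
    exact div_nonneg (by positivity) (by linarith)
  have h5 : ‖t‖ ≤ (Fintype.card β * H : ℝ) ^ (Fintype.card β : ℝ) := by
    refine htn.trans ?_
    refine (Real.rpow_le_rpow ?_ h2 hexp0).trans ?_
    · refine mul_nonneg (by positivity) (le_trans zero_le_one (le_max_left _ _))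
    · exact Real.rpow_le_rpow_of_exponent_le hbase hexp
  have h6 : ‖t i‖ ≤ (Fintype.card β * H : ℝ) ^ (Fintype.card β : ℝ) := (norm_le_pi_norm t i).trans h5
  rw [Real.rpow_natCast, Int.norm_eq_abs] at h6
  have h7 : ((|t i| : ℤ) : ℝ) ≤ ((((Fintype.card β * H : ℕ) : ℤ) ^ Fintype.card β : ℤ) : ℝ) := by
    push_cast
    exact h6
  exact_mod_cast h7

theorem KER : KER_stmt := by
  intro ι _ _ _ H hH S hS hdet
  obtain ⟨T, hT⟩ : ∃ T : Set (ι → ℚ), T = (fun v : ι → ℤ => fun i => (v i : ℚ)) '' S := ⟨_, rfl⟩
  obtain ⟨b, hbT, hspan, hli⟩ := exists_linearIndependent ℚ T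
  have hfin : b.Finite := hli.setFinite
  have : Fintype b := hfin.fintype
  have hex : ∀ x : b, ∃ v ∈ S, (fun i => ((v i : ℤ) : ℚ)) = (x : ι → ℚ) := by
    intro x
    have := hbT x.2
    rw [hT] at this
    obtain ⟨v, hv, hvx⟩ := this
    exact ⟨v, hv, hvx⟩
  choose w hwS hw using hex
  have hcard : Fintype.card b ≤ Fintype.card ι := by
    have := hli.fintype_card_le_finrank
    rwa [Module.finrank_fintype_fun_eq_card] at this
  rcases hcard.lt_or_eq with hlt | heq
  · rcases Nat.eq_zero_or_pos (Fintype.card b) with h0 | h0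
    · -- S is zero
      have hb : b = ∅ := by
        have := Fintype.card_eq_zero_iff.1 h0
        exact Set.isEmpty_coe_sort.1 this
      rw [hb, Submodule.span_empty] at hspan
      obtain ⟨i₀⟩ := ‹Nonempty ι›
      refine ⟨Pi.single i₀ 1, ?_, ?_, ?_⟩
      · intro h
        have := congrFun h i₀
        simp at this
      · intro i
        have h1 : (1 : ℤ) ≤ ((Fintype.card ι * H : ℕ) : ℤ) ^ Fintype.card ι := by
          apply one_le_pow₀
          have : 1 ≤ Fintype.card ι * H := Nat.one_le_iff_ne_zero.2 (by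
            have : 0 < Fintype.card ι := Fintype.card_pos_iff.2 ⟨i₀⟩
            positivity)
          exact_mod_cast this
        by_cases hi : i = i₀
        · subst hi
          simpa using h1
        · rw [Pi.single_eq_of_ne hi]
          simp only [abs_zero]
          linarith
      · intro v hv
        have hmem : (fun i => ((v i : ℤ) : ℚ)) ∈ Submodule.span ℚ T :=
          Submodule.subset_span (by rw [hT]; exact ⟨v, hv, rfl⟩)
        rw [← hspan, Submodule.mem_bot] at hmem
        have hv0 : ∀ i, v i = 0 := by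
          intro i
          have := congrFun hmem i
          simp only [Pi.zero_apply] at this
          exact_mod_cast this
        exact Finset.sum_eq_zero fun i _ => by rw [hv0 i, mul_zero]
    · obtain ⟨c, hc0, hcA, hcb⟩ := KER_norm (fun (x : b) (i : ι) => w x i) H hH
        (fun x i => hS _ (hwS x) i) h0 hlt
      refine ⟨c, hc0, hcb, ?_⟩
      intro v hv
      -- the linear form
      let φ : (ι → ℚ) →ₗ[ℚ] ℚ :=
        { toFun := fun x => ∑ i, (c i : ℚ) * x i
          map_add' := by
            intro x y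
            rw [← Finset.sum_add_distrib]
            exact Finset.sum_congr rfl fun i _ => by rw [Pi.add_apply]; ring
          map_smul' := by
            intro a x
            rw [RingHom.id_apply, smul_eq_mul, Finset.mul_sum]
            exact Finset.sum_congr rfl fun i _ => by rw [Pi.smul_apply, smul_eq_mul]; ring }
      have hker : Submodule.span ℚ b ≤ LinearMap.ker φ := by
        rw [Submodule.span_le]
        intro x hx
        have h1 := congrFun hcA ⟨x, hx⟩
        have h2 : ∑ i, w ⟨x, hx⟩ i * c i = 0 := h1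
        show ∑ i, (c i : ℚ) * x i = 0
        have h3 := hw ⟨x, hx⟩
        have h4 : ∀ i, x i = (w ⟨x, hx⟩ i : ℚ) := fun i => (congrFun h3 i).symm
        have h5 : ∑ i, (c i : ℚ) * x i = ((∑ i, w ⟨x, hx⟩ i * c i : ℤ) : ℚ) := by
          push_cast
          exact Finset.sum_congr rfl fun i _ => by rw [h4 i]; ring
        rw [h5, h2]
        simp
      have hmem : (fun i => ((v i : ℤ) : ℚ)) ∈ Submodule.span ℚ T :=
        Submodule.subset_span (by rw [hT]; exact ⟨v, hv, rfl⟩)
      rw [← hspan] at hmem
      have h6 : ∑ i, (c i : ℚ) * (v i : ℚ) = 0 := hker hmem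
      exact_mod_cast h6
  · exfalso
    obtain ⟨e⟩ : Nonempty (ι ≃ b) := ⟨Fintype.equivOfCardEq heq.symm⟩
    have hd := hdet (Matrix.of fun i => w (e i)) (fun i => hwS (e i))
    have hd2 : ((Matrix.of fun i => w (e i)).map (Int.cast : ℤ → ℚ)).det = 0 := by
      have h7 := Int.cast_det (R := ℚ) (Matrix.of fun i => w (e i))
      rw [hd] at h7
      rw [← h7]
      simp
    have hli2 : LinearIndependent ℚ ((Matrix.of fun i => w (e i)).map (Int.cast : ℤ → ℚ)).row := by
      have h8 : ((Matrix.of fun i => w (e i)).map (Int.cast : ℤ → ℚ)).row =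
          (Subtype.val : b → (ι → ℚ)) ∘ e := by
        funext i
        exact hw (e i)
      rw [h8]
      exact hli.comp e e.injective
    rw [Matrix.linearIndependent_rows_iff_isUnit, Matrix.isUnit_iff_isUnit_det, hd2] at hli2
    exact not_isUnit_zero hli2

end Pool.Agent.helper27.TD
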